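import Mathlib
import Pool.Agent.H90.Enum

set_option autoImplicit false

namespace Pool.Agent.Results.MP_7c6dee_nt.QueneauAperiodic

/-- There is a seed of positive integers whose Queneau sequence (each later term is the least
integer above the previous one that is not a sum of two distinct earlier terms) has a difference
sequence that is not eventually periodic. -/
theorem result :
    ∃ m : ℕ, 1 ≤ m ∧ ∃ u : ℕ → ℕ,
      (∀ i, i < m → 0 < u i) ∧
      (∀ i, i + 1 < m → u i < u (i + 1)) ∧
      (∀ n, m ≤ n →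
        IsLeast {x : ℕ | u (n - 1) < x ∧ ∀ i j, i < j → j < n → x ≠ u i + u j} (u n)) ∧
      ¬ ∃ N p : ℕ, 1 ≤ p ∧ ∀ n, N ≤ n →
        ((u (n + p + 1) : ℤ) - (u (n + p) : ℤ)) = ((u (n + 1) : ℤ) - (u n : ℤ)) := by
  refine ⟨Pool.Agent.H90.Dickson.seedLen, Pool.Agent.H90.Dickson.seedLen_pos,
    Pool.Agent.H90.Dickson.enum, ?_, ?_, ?_, Pool.Agent.H90.Dickson.not_periodic⟩
  · intro i _
    exact Pool.Agent.H90.Dickson.enum_pos i
  · intro i _
    exact Pool.Agent.H90.Dickson.enum_strictMono (Nat.lt_succ_self i)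
  · intro n hn
    have hpos := Pool.Agent.H90.Dickson.seedLen_pos
    constructor
    · refine ⟨Pool.Agent.H90.Dickson.enum_strictMono (by omega), ?_⟩
      intro i j _ _
      exact Pool.Agent.H90.Dickson.enum_no_sum hn i j
    · rintro x ⟨h1, h2⟩
      by_contra hlt
      obtain ⟨i, j, hij, hj, hx⟩ :=
        Pool.Agent.H90.Dickson.gap_sum hn h1 (not_le.1 hlt)
      exact h2 i j hij hj hx

end Pool.Agent.Results.MP_7c6dee_nt.QueneauAperiodic
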